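import Pool.Agent.PQP.StmtsC

/-!
# Row BDJ
-/

set_option autoImplicit false

open scoped InnerProductSpace Topology ContDiff Manifold
open MeasureTheory Filter Set

noncomputable section

namespace Pool.Agent.PQP.H61

open Pool.Agent.Helper42_Paneitz Pool.Agent.Helper82_Vir Pool.Agent.FLX

theorem mas_mono {f : S4 → ℝ} (hf : Dens f) (z : S4) {r u : ℝ} (hru : r ≤ u) :
    mas f z r ≤ mas f z u := by
  unfold mas
  have hint : Integrable f sig := by
    by_contra hcon
    have h1 := hf.2.2
    rw [integral_undef hcon] at h1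
    exact zero_ne_one h1
  refine setIntegral_mono_set hint.integrableOn ?_ ?_
  · exact Eventually.of_forall fun x => (hf.2.1 x).le
  · refine HasSubset.Subset.eventuallyLE ?_
    intro y hy
    exact le_trans hy hru

/-- BDJ -/
theorem bdj (jen : JenStmt) (pot_ : PotStmt) : BdjStmt := by
  intro u hu
  obtain ⟨C, hC, hJ⟩ := jen 2 (1 / 8) (by norm_num) (by norm_num) (by norm_num)
  obtain ⟨c₀, -, hP⟩ := pot_
  have hr : 0 < min u 1 := lt_min hu one_pos
  refine ⟨C * (min u 1) ^ (-(4 * (2 : ℝ))), mul_pos hC (Real.rpow_pos_of_pos hr _), ?_⟩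
  intro f hf hm
  refine ⟨(hP f hf.1).1, ?_⟩
  have h1 := hJ f Set.univ (min u 1) hf MeasurableSet.univ hr (min_le_right _ _)
    (fun x _ => le_trans (mas_mono hf x (min_le_left _ _)) (hm x))
  rw [setIntegral_univ] at h1
  have h2 : (fun x : S4 => Real.exp (8 * pot f x)) = fun x => Real.exp (4 * 2 * pot f x) := by
    funext x
    norm_num
  rw [h2]
  exact h1

end Pool.Agent.PQP.H61
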